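import Mathlib
import Pool.Agent.Q149.HY.H

/-!
# The Havet-Yu conjecture for `p` a little more than half the known bounds for the chromatic number

From `λ_p^T ≤ χ + χ' + p - 2` the inequality `λ_p^T ≤ D + 2 p - 1` is known for `p ≥ χ(G)`.  Here
it is proved for `p` a little more than half of the (best known) upper bounds for `χ(G)` for graphs
in which every vertex is in few triangles, for graphs without a clique of given size, and in general
for hereditary classes of graphs with a regular bound `o(Δ)` for the chromatic number.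

Proof.  The vertices are distributed at random into `2 m` types, `m` low ones and `m` high ones,
with `m` of order `log D`, such that every vertex has at most `w`, about `D / (2 m)`, neighbours in
every type (local lemma).  The graph inside a type is coloured with `k` colours, where `k` is the
bound for graphs with degrees at most `w`.  The vertices of the low types get the `m k` smallest
labels, those of the high types the `m k` largest labels, and the edges between two given types get
labels in an interval of length `w + 1` (structure theorem of the starting module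
`Pool.Agent.TH104.HY`).  The chromatic bounds are proved by counting colourings (starting module
`Pool.Agent.TH855`); the random partition does not preserve the number of triangles proportionally,
but this costs only a factor `(log D) ^ 2` in the sparsity.
-/

set_option autoImplicit false

namespace Pool.Agent.Results.MP_b8729f_co.FewTriangles

open Classical

/-- `TotalLabeling G p l`: the graph `G` has a `(p,1)`-total labeling of span `l`, that is, labels
`0, …, l` for the vertices (`fV`) and the edges (`fE`) such that adjacent vertices get different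
labels, edges sharing an endpoint get different labels, and the labels of a vertex and of an
incident edge differ by at least `p`. -/
def TotalLabeling {V : Type} (G : SimpleGraph V) (p l : ℕ) : Prop :=
  ∃ (fV : V → ℕ) (fE : Sym2 V → ℕ),
    (∀ v, fV v ≤ l) ∧ (∀ e ∈ G.edgeSet, fE e ≤ l) ∧
    (∀ u v, G.Adj u v → fV u ≠ fV v) ∧
    (∀ u v w, G.Adj u v → G.Adj u w → v ≠ w → fE s(u, v) ≠ fE s(u, w)) ∧
    (∀ u v, G.Adj u v → (p : ℤ) ≤ |(fV u : ℤ) - (fE s(u, v) : ℤ)|)

/-- (1) For every `ε > 0` there is `K` such that for all `D ≥ K`, all real `f` with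
`(log D) ^ K ≤ f ≤ D ^ 2` and all `p ≥ (1 + ε) D / log f`, every finite graph with all degrees at
most `D` in which, for every vertex `v`, there are at most `D ^ 2 / f` ordered pairs of adjacent
neighbours of `v`, has a `(p,1)`-total labeling of span `D + 2 p - 1`.

(2) For every `r ≥ 3` and every `ε > 0` there is `D₀` such that for all `D ≥ D₀` and all
`p ≥ ((r - 2) / 2 + ε) D log log D / log D`, every finite graph with all degrees at most `D` and
without a clique of `r` vertices has a `(p,1)`-total labeling of span `D + 2 p - 1`.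

(3) Let `𝒞` be a class of graphs which contains the induced subgraphs of its members, and let
`b : ℕ → ℝ` be such that, for all large `Δ`, the finite graphs in `𝒞` with all degrees at most `Δ`
have chromatic number at most `b Δ`.  Suppose that `b` is regular, that is,
`b(y) / y ≤ (1 + o(1)) b(D) / D` for `D / (log D) ^ 2 ≤ y ≤ D`, and that `b(D) = o(D)`.  Then for
every `ε > 0`, all large `D` and all `p ≥ (1 / 2 + ε) b(D) + ε D / log D`, every finite graph in
`𝒞` with all degrees at most `D` has a `(p,1)`-total labeling of span `D + 2 p - 1`. -/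
theorem result :
    (∀ ε : ℝ, 0 < ε → ∃ K : ℕ, ∀ (D p : ℕ) (f : ℝ), K ≤ D → (Real.log D) ^ K ≤ f →
      f ≤ (D : ℝ) ^ 2 → (1 + ε) * (D / Real.log f) ≤ p →
      ∀ (V : Type) [Fintype V] (G : SimpleGraph V), (∀ v, (G.neighborSet v).ncard ≤ D) →
        (∀ v, ({a : V × V | G.Adj v a.1 ∧ G.Adj v a.2 ∧ G.Adj a.1 a.2}.ncard : ℝ) ≤
          (D : ℝ) ^ 2 / f) → TotalLabeling G p (D + 2 * p - 1)) ∧
    (∀ r : ℕ, 3 ≤ r → ∀ ε : ℝ, 0 < ε → ∃ D₀ : ℕ, ∀ D p : ℕ, D₀ ≤ D →
      (((r : ℝ) - 2) / 2 + ε) * (D * (Real.log (Real.log D) / Real.log D)) ≤ p →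
      ∀ (V : Type) [Fintype V] (G : SimpleGraph V), (∀ v, (G.neighborSet v).ncard ≤ D) →
        G.CliqueFree r → TotalLabeling G p (D + 2 * p - 1)) ∧
    (∀ (𝒞 : ∀ V : Type, SimpleGraph V → Prop) (b : ℕ → ℝ),
      (∀ (V : Type) (G : SimpleGraph V) (X : Set V), 𝒞 V G → 𝒞 X (G.induce X)) →
      (∃ Δ₀ : ℕ, ∀ Δ : ℕ, Δ₀ ≤ Δ → ∀ (V : Type) [Fintype V] (G : SimpleGraph V), 𝒞 V G →
        (∀ v, (G.neighborSet v).ncard ≤ Δ) → ∃ n : ℕ, G.Colorable n ∧ (n : ℝ) ≤ b Δ) →
      (∀ η : ℝ, 0 < η → ∃ D₁ : ℕ, ∀ D y : ℕ, D₁ ≤ D → D / (Real.log D) ^ 2 ≤ (y : ℝ) →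
        y ≤ D → b y * D ≤ (1 + η) * b D * y) →
      (∀ η : ℝ, 0 < η → ∃ D₁ : ℕ, ∀ D : ℕ, D₁ ≤ D → b D ≤ η * D) →
      ∀ ε : ℝ, 0 < ε → ∃ D₀ : ℕ, ∀ D p : ℕ, D₀ ≤ D →
        (1 / 2 + ε) * b D + ε * (D / Real.log D) ≤ p →
        ∀ (V : Type) [Fintype V] (G : SimpleGraph V), (∀ v, (G.neighborSet v).ncard ≤ D) →
          𝒞 V G → TotalLabeling G p (D + 2 * p - 1)) := by
  have hdegc : ∀ (V : Type) [Fintype V] (G : SimpleGraph V) (v : V),
      (G.neighborSet v).ncard = G.degree v := by
    intro V _ G v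
    rw [Set.ncard_eq_toFinset_card', ← SimpleGraph.neighborFinset_def,
      SimpleGraph.card_neighborFinset_eq_degree]
  have hdegf : ∀ (V : Type) [Fintype V] (G : SimpleGraph V) (v : V),
      (Finset.univ.filter (fun u => G.Adj v u)).card = (G.neighborSet v).ncard := by
    intro V _ G v
    rw [hdegc, ← SimpleGraph.card_neighborFinset_eq_degree]
    congr 1
    ext u
    simp
  have h3 : (∀ (𝒞 : ∀ V : Type, SimpleGraph V → Prop) (b : ℕ → ℝ),
      (∀ (V : Type) (G : SimpleGraph V) (X : Set V), 𝒞 V G → 𝒞 X (G.induce X)) →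
      (∃ Δ₀ : ℕ, ∀ Δ : ℕ, Δ₀ ≤ Δ → ∀ (V : Type) [Fintype V] (G : SimpleGraph V), 𝒞 V G →
        (∀ v, (G.neighborSet v).ncard ≤ Δ) → ∃ n : ℕ, G.Colorable n ∧ (n : ℝ) ≤ b Δ) →
      (∀ η : ℝ, 0 < η → ∃ D₁ : ℕ, ∀ D y : ℕ, D₁ ≤ D → D / (Real.log D) ^ 2 ≤ (y : ℝ) →
        y ≤ D → b y * D ≤ (1 + η) * b D * y) →
      (∀ η : ℝ, 0 < η → ∃ D₁ : ℕ, ∀ D : ℕ, D₁ ≤ D → b D ≤ η * D) →
      ∀ ε : ℝ, 0 < ε → ∃ D₀ : ℕ, ∀ D p : ℕ, D₀ ≤ D →
        (1 / 2 + ε) * b D + ε * (D / Real.log D) ≤ p →
        ∀ (V : Type) [Fintype V] (G : SimpleGraph V), (∀ v, (G.neighborSet v).ncard ≤ D) →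
          𝒞 V G → TotalLabeling G p (D + 2 * p - 1)) := by
    intro 𝒞 b hind hb hreg h0 ε hε
    obtain ⟨D₀, h⟩ := Pool.Agent.Q149.HY.principle 𝒞 hind b (by
      obtain ⟨Δ₀, hb⟩ := hb
      refine ⟨Δ₀, fun Δ hΔ V _ G hG hdeg => hb Δ hΔ V G hG (fun v => ?_)⟩
      rw [← hdegf]
      exact hdeg v) hreg h0 ε hε
    refine ⟨D₀, fun D p hD hp V _ G hdeg hG => h D p hD hp V G hG (fun v => ?_)⟩
    rw [← hdegc]
    exact hdeg v
  refine ⟨?_, ?_, h3⟩
  · intro ε hε
    obtain ⟨K, h⟩ := Pool.Agent.Q149.HY.main_few ε hε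
    refine ⟨K, fun D p f h1 h2 h3 h4 V _ G hdeg hf => h D p f h1 h2 h3 h4 V G (fun v => ?_)
      (fun v => ?_)⟩
    · rw [← hdegc]
      exact hdeg v
    · refine le_trans (le_of_eq ?_) (hf v)
      rw [← Set.ncard_coe_finset]
      congr 2
      ext a
      simp
  · intro r hr ε hε
    obtain ⟨s, rfl⟩ : ∃ s, r = s + 2 := ⟨r - 2, by omega⟩
    have hs : 1 ≤ s := by omega
    have hs1 : (1 : ℝ) ≤ s := by exact_mod_cast hs
    obtain ⟨δ, hδ⟩ : ∃ δ : ℝ, δ = min (ε / (s + 3)) 1 := ⟨_, rfl⟩
    have hδ0 : 0 < δ := by rw [hδ]; exact lt_min (by positivity) one_pos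
    have hδ1 : δ ≤ 1 := by rw [hδ]; exact min_le_right _ _
    have hδ2 : δ * (s + 3) ≤ ε := by
      rw [← le_div_iff₀ (by positivity), hδ]; exact min_le_left _ _
    obtain ⟨Δ₀, hJ⟩ := Pool.Agent.Q149.HY.johansson s hs δ hδ0
    have hlt : Filter.Tendsto (fun n : ℕ => Real.log (n : ℝ)) Filter.atTop Filter.atTop :=
      Real.tendsto_log_atTop.comp tendsto_natCast_atTop_atTop
    obtain ⟨D₀, h⟩ := h3 (fun V G => G.CliqueFree (s + 2))
      (fun Δ => (s + δ) * (Δ * (Real.log (Real.log Δ) / Real.log Δ)))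
      (fun V G X hG => hG.comap ⟨⟨⟨fun x => x.1, fun h => h⟩, Subtype.val_injective⟩⟩)
      ⟨Δ₀, fun Δ hΔ V _ G hG hdeg => hJ Δ hΔ V G (fun K hK => by
          by_contra hcon
          push Not at hcon
          obtain ⟨K', hK', hcard⟩ := Finset.exists_subset_card_eq (show s + 2 ≤ K.card by omega)
          exact hG K' ⟨hK.subset (by exact_mod_cast hK'), hcard⟩) (fun v => by
            rw [hdegf]; exact hdeg v)⟩
      (by
        intro η hη
        have t2 := Real.isLittleO_log_id_atTop.bound (show (0 : ℝ) < η / (2 * (1 + η)) by positivity)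
        obtain ⟨N, hN⟩ := Filter.eventually_atTop.1 ((hlt.eventually (t2.and
          (Filter.eventually_ge_atTop (3 : ℝ)))))
        refine ⟨max N 1, ?_⟩
        intro D y hD hy hyD
        obtain ⟨hLK, hL3⟩ := hN D ((le_max_left _ _).trans hD)
        have hD1 : (1 : ℝ) ≤ D := by exact_mod_cast (le_max_right _ _).trans hD
        obtain ⟨L, hL⟩ : ∃ L : ℝ, L = Real.log (D : ℝ) := ⟨_, rfl⟩
        rw [← hL] at hLK hL3 hy ⊢
        have hL0 : 0 < L := by linarith
        have hlogL : 0 < Real.log L := Real.log_pos (by linarith)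
        have hlog : Real.log L ≤ η / (2 * (1 + η)) * L := by
          simpa [abs_of_nonneg hL0.le, abs_of_nonneg hlogL.le] using hLK
        have hD0 : (0 : ℝ) < D := by linarith
        have hy0 : (0 : ℝ) < y := lt_of_lt_of_le (by positivity) hy
        have hlogy : L / (1 + η) ≤ Real.log y := by
          have h1 := Real.log_le_log (by positivity) hy
          rw [Real.log_div hD0.ne' (by positivity), Real.log_pow, ← hL] at h1
          push_cast at h1
          have h2 : 2 * (η / (2 * (1 + η)) * L) = L - L / (1 + η) := by field_simp; ring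
          linarith
        have hly0 : 0 < Real.log y := lt_of_lt_of_le (by positivity) hlogy
        have hly1 : Real.log y ≤ L := by
          rw [hL]
          exact Real.log_le_log hy0 (by exact_mod_cast hyD)
        have h3 : Real.log (Real.log y) / Real.log y ≤ (1 + η) * (Real.log L / L) := by
          have h4 : Real.log (Real.log y) ≤ Real.log L := Real.log_le_log hly0 hly1
          calc Real.log (Real.log y) / Real.log y ≤ Real.log L / Real.log y :=
                div_le_div_of_nonneg_right h4 hly0.le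
            _ ≤ Real.log L / (L / (1 + η)) :=
                div_le_div_of_nonneg_left hlogL.le (by positivity) hlogy
            _ = (1 + η) * (Real.log L / L) := by field_simp
        have h5 := mul_le_mul_of_nonneg_left h3 (show 0 ≤ (s + δ) * (y * D) by positivity)
        calc (s + δ) * (y * (Real.log (Real.log y) / Real.log y)) * D =
              (s + δ) * (y * D) * (Real.log (Real.log y) / Real.log y) := by ring
          _ ≤ (s + δ) * (y * D) * ((1 + η) * (Real.log L / L)) := h5
          _ = (1 + η) * ((s + δ) * (D * (Real.log L / L))) * y := by ring)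
      (by
        intro η hη
        have t2 := Real.isLittleO_log_id_atTop.bound (show (0 : ℝ) < η / (s + δ) by positivity)
        obtain ⟨N, hN⟩ := Filter.eventually_atTop.1 ((hlt.eventually (t2.and
          (Filter.eventually_ge_atTop (3 : ℝ)))))
        refine ⟨N, ?_⟩
        intro D hD
        obtain ⟨hLK, hL3⟩ := hN D hD
        obtain ⟨L, hL⟩ : ∃ L : ℝ, L = Real.log (D : ℝ) := ⟨_, rfl⟩
        rw [← hL] at hLK hL3 ⊢
        have hL0 : 0 < L := by linarith
        have hlogL : 0 < Real.log L := Real.log_pos (by linarith)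
        have hlog : Real.log L ≤ η / (s + δ) * L := by
          simpa [abs_of_nonneg hL0.le, abs_of_nonneg hlogL.le] using hLK
        have h1 : (s + δ) * (Real.log L / L) ≤ η := by
          rw [mul_div_assoc', div_le_iff₀ hL0]
          have h2 := mul_le_mul_of_nonneg_left hlog (show 0 ≤ s + δ by positivity)
          have h3 : (s + δ) * (η / (s + δ) * L) = η * L := by field_simp
          linarith
        calc (s + δ) * (D * (Real.log L / L)) = (s + δ) * (Real.log L / L) * D := by ring
          _ ≤ η * D := mul_le_mul_of_nonneg_right h1 (by positivity)) δ hδ0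
    obtain ⟨N, hN⟩ := Filter.eventually_atTop.1 (hlt.eventually_ge_atTop (3 : ℝ))
    refine ⟨max D₀ N, ?_⟩
    intro D p hD hp V _ G hdeg hG
    refine h D p ((le_max_left _ _).trans hD) (le_trans ?_ hp) V G hdeg hG
    have hL3 := hN D ((le_max_right _ _).trans hD)
    obtain ⟨L, hL⟩ : ∃ L : ℝ, L = Real.log (D : ℝ) := ⟨_, rfl⟩
    rw [← hL] at hL3 ⊢
    have hL0 : 0 < L := by linarith
    have hlogL : 1 ≤ Real.log L := by
      rw [Real.le_log_iff_exp_le hL0]
      have := Real.exp_one_lt_d9
      linarith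
    have hX : (D : ℝ) / L ≤ D * (Real.log L / L) := by
      rw [mul_div_assoc']
      apply div_le_div_of_nonneg_right _ hL0.le
      nlinarith [show (0 : ℝ) ≤ D by positivity]
    have hX0 : 0 ≤ D * (Real.log L / L) := by positivity
    have h4 := mul_le_mul_of_nonneg_left hX hδ0.le
    have h5 : (1 / 2 + δ) * (s + δ) + δ ≤ s / 2 + ε := by nlinarith
    have h6 := mul_le_mul_of_nonneg_right h5 hX0
    push_cast
    have h7 : ((s : ℝ) + 2 - 2) / 2 + ε = s / 2 + ε := by ring
    rw [h7]
    linarith

end Pool.Agent.Results.MP_b8729f_co.FewTriangles
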