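import Mathlib
import Pool.Agent.Q149.HY.B
import Pool.Agent.Y388.CF.Transversal

/-!
# The Havet-Yu conjecture for `F`-free graphs and `p` a little more than `(c(F) / 2) Δ / log Δ`

`c(F)` is the smallest number such that every `F`-free graph of maximum degree `Δ` has a proper
colouring with `(c(F) + o(1)) Δ / log Δ` colours.  Alon, Krivelevich and Sudakov conjectured that it
is always finite.

Proof.  The vertices are distributed at random into `2 m` types, `m` low ones and `m` high ones,
with `m` of order `log D`, such that every vertex has at most `w`, about `D / (2 m)`, neighbours in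
every type (local lemma).  The graph inside a type belongs to the same class and has a colouring
with `k = (c + o(1)) w / log w` colours.  The vertices of the low types get the `m k` smallest
labels, those of the high types the `m k` largest labels, and the edges between two given types get
labels in an interval of length `w + 1`; these intervals are placed by a modified Latin square
(starting module `Pool.Agent.TH104.HY`).  The bounds for `c(F)` are starting results.
-/

set_option autoImplicit false

namespace Pool.Agent.Results.MP_b8729f_co.ForbiddenSubgraphs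

open Classical

/-- `TotalLabeling G p l`: the graph `G` has a `(p,1)`-total labeling of span `l`, that is, labels
`0, …, l` for the vertices (`fV`) and the edges (`fE`) such that adjacent vertices get different
labels, edges sharing an endpoint get different labels, and the labels of a vertex and of an
incident edge differ by at least `p`. -/
def TotalLabeling {V : Type} (G : SimpleGraph V) (p l : ℕ) : Prop :=
  ∃ (fV : V → ℕ) (fE : Sym2 V → ℕ),
    (∀ v, fV v ≤ l) ∧ (∀ e ∈ G.edgeSet, fE e ≤ l) ∧
    (∀ u v, G.Adj u v → fV u ≠ fV v) ∧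
    (∀ u v w, G.Adj u v → G.Adj u w → v ≠ w → fE s(u, v) ≠ fE s(u, w)) ∧
    (∀ u v, G.Adj u v → (p : ℤ) ≤ |(fV u : ℤ) - (fE s(u, v) : ℤ)|)

/-- `HavetYu 𝒞 c`: for every `ε > 0` there is `D₀` such that for all `D ≥ D₀` and all
`p ≥ (c / 2 + ε) D / log D`, every finite graph in the class `𝒞` with all degrees at most `D` has a
`(p,1)`-total labeling of span `D + 2 p - 1`. -/
def HavetYu (𝒞 : ∀ V : Type, SimpleGraph V → Prop) (c : ℝ) : Prop :=
  ∀ ε : ℝ, 0 < ε → ∃ D₀ : ℕ, ∀ (V : Type) [Fintype V] (G : SimpleGraph V) (D p : ℕ), D₀ ≤ D →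
    (∀ v, (G.neighborSet v).ncard ≤ D) → 𝒞 V G → (c / 2 + ε) * (D / Real.log D) ≤ p →
    TotalLabeling G p (D + 2 * p - 1)

/-- `ChromaticBound 𝒞 c`: for every `ε > 0` there is `Δ₀` such that for all `Δ ≥ Δ₀`, every finite
graph in the class `𝒞` with maximum degree `Δ` has a proper vertex colouring with at most
`(c + ε) Δ / log Δ` colours. -/
def ChromaticBound (𝒞 : ∀ V : Type, SimpleGraph V → Prop) (c : ℝ) : Prop :=
  ∀ ε : ℝ, 0 < ε → ∃ Δ₀ : ℕ, ∀ (V : Type) [Fintype V] (G : SimpleGraph V) (Δ : ℕ), Δ₀ ≤ Δ →
    G.maxDegree = Δ → 𝒞 V G → ∃ n : ℕ, G.Colorable n ∧ (n : ℝ) ≤ (c + ε) * (Δ / Real.log Δ)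

/-- `F` is almost bipartite: it is bipartite, or it becomes bipartite on deleting one vertex. -/
def AlmostBipartite {W : Type} (F : SimpleGraph W) : Prop :=
  F.Colorable 2 ∨ ∃ x, (F.induce {y | y ≠ x}).Colorable 2

/-- `F` has treewidth at most two: there are a finite tree `T` and sets `B i` (the bags) of at most
three vertices of `F`, one for each vertex `i` of `T`, such that every edge of `F` lies inside a
bag and, for every vertex `w` of `F`, the `i` with `w ∈ B i` induce a connected (so nonempty)
subgraph of `T`. -/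
def TreewidthTwo {W : Type} (F : SimpleGraph W) : Prop :=
  ∃ (I : Type) (_ : Fintype I) (T : SimpleGraph I) (B : I → Set W), T.IsTree ∧
    (∀ i, (B i).ncard ≤ 3) ∧ (∀ a b, F.Adj a b → ∃ i, a ∈ B i ∧ b ∈ B i) ∧
    ∀ w, (T.induce {i | w ∈ B i}).Connected

/-- (1) Let `𝒞` be a class of graphs which contains all induced subgraphs of its members, and let
`c ≥ 0` be such that the graphs in `𝒞` of maximum degree `Δ` have chromatic number at most
`(c + o(1)) Δ / log Δ`.  Then for every `ε > 0`, all large `D` and all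
`p ≥ (c / 2 + ε) D / log D`, every finite graph in `𝒞` with all degrees at most `D` has a
`(p,1)`-total labeling of span `D + 2 p - 1`.

(2) If the finite graph `F` is almost bipartite, this holds for the `F`-free graphs and `c = 1`.

(3) If `F` has a proper `3`-colouring in which the vertices of one of the colours have degree at
most `k`, where `k ≥ 1`, this holds for the `F`-free graphs and `c = k`.

(4) If `F` is `3`-colourable, there is `c` such that this holds for the `F`-free graphs.

(5) If `F` has treewidth at most two, this holds for the `F`-free graphs and `c = 2`. -/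
theorem result :
    (∀ (𝒞 : ∀ V : Type, SimpleGraph V → Prop) (c : ℝ), 0 ≤ c →
      (∀ (V : Type) (G : SimpleGraph V) (X : Set V), 𝒞 V G → 𝒞 X (G.induce X)) →
      ChromaticBound 𝒞 c → HavetYu 𝒞 c) ∧
    (∀ (W : Type) [Fintype W] (F : SimpleGraph W), AlmostBipartite F →
      HavetYu (fun _ G => F.Free G) 1) ∧
    (∀ (W : Type) [Fintype W] (F : SimpleGraph W) (C : F.Coloring (Fin 3)) (i : Fin 3) (k : ℕ),
      1 ≤ k → (∀ x, C x = i → (F.neighborSet x).ncard ≤ k) → HavetYu (fun _ G => F.Free G) k) ∧
    (∀ (W : Type) [Fintype W] (F : SimpleGraph W), F.Colorable 3 →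
      ∃ c : ℝ, HavetYu (fun _ G => F.Free G) c) ∧
    (∀ (W : Type) [Fintype W] (F : SimpleGraph W), TreewidthTwo F →
      HavetYu (fun _ G => F.Free G) 2) := by
  have h1 : ∀ (𝒞 : ∀ V : Type, SimpleGraph V → Prop) (c : ℝ), 0 ≤ c →
      (∀ (V : Type) (G : SimpleGraph V) (X : Set V), 𝒞 V G → 𝒞 X (G.induce X)) →
      ChromaticBound 𝒞 c → HavetYu 𝒞 c := by
    intro 𝒞 c hc hind hch ε hε
    have hcol := Pool.Agent.Q149.HY.logCol_of 𝒞 c hc hind (by
      intro δ hδ
      obtain ⟨Δ₀, h⟩ := hch δ hδ
      refine ⟨Δ₀, fun Δ hΔ V _ G inst hG hmax => h V G Δ hΔ ?_ hG⟩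
      rw [← hmax]
      congr)
    obtain ⟨D₀, h⟩ := Pool.Agent.Q149.HY.main 𝒞 c hc hcol ε hε
    refine ⟨D₀, ?_⟩
    intro V _ G D p h1 h2 h3 h4
    refine h V G D p h1 ?_ h3 h4
    intro v
    have := h2 v
    rwa [Set.ncard_eq_toFinset_card', ← SimpleGraph.neighborFinset_def,
      SimpleGraph.card_neighborFinset_eq_degree] at this
  have h2 : ∀ (W : Type) [Fintype W] (F : SimpleGraph W) (a : ℝ), 0 ≤ a →
      Pool.Agent.TH855.c F ≤ ENNReal.ofReal a → HavetYu (fun _ G => F.Free G) a := by
    intro W _ F a ha hF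
    refine h1 _ a ha ?_ ?_
    · intro V G X hG hX
      exact hG (hX.trans ⟨⟨⟨fun x => x.1, fun h => h⟩, Subtype.val_injective⟩⟩)
    · intro ε hε
      obtain ⟨Δ₀, h⟩ := Pool.Agent.TH855.upTo_of_c_le F a ha hF ε hε
      exact ⟨Δ₀, fun V _ G Δ hΔ hmax hG => h Δ hΔ V G hG hmax⟩
  refine ⟨h1, ?_, ?_, ?_, ?_⟩
  · intro W _ F hF
    exact h2 W F 1 (by norm_num) (by
      simpa using Pool.Agent.Y388.CF.c_almost_bipartite F hF)
  · intro W _ F C i k hk hdeg
    refine h2 W F k (by positivity) ?_
    rw [ENNReal.ofReal_natCast]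
    exact Pool.Agent.Y388.CF.three_colourable F C i k hk hdeg
  · intro W _ F hF
    obtain ⟨C⟩ := hF
    refine ⟨((Fintype.card W + 1 : ℕ) : ℝ), h2 W F _ (by positivity) ?_⟩
    rw [ENNReal.ofReal_natCast]
    exact Pool.Agent.Y388.CF.three_colourable F C 0 (Fintype.card W + 1) (by omega)
      (fun x _ => by
        have h1 : (F.neighborSet x).ncard ≤ Nat.card W := Set.ncard_le_card _
        rw [Nat.card_eq_fintype_card] at h1
        omega)
  · intro W _ F hF
    refine h2 W F 2 (by norm_num) ?_
    refine (Pool.Agent.TH855.treewidth_bound F 2 (by omega) hF).trans ?_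
    calc ((2 : ℕ) : ENNReal) * Pool.Agent.TH855.c (⊤ : SimpleGraph (Fin (2 + 1)))
        ≤ (2 : ℕ) * 1 := mul_le_mul_right Pool.Agent.TH855.c_triangle_le_one _
      _ = ENNReal.ofReal 2 := by norm_num

end Pool.Agent.Results.MP_b8729f_co.ForbiddenSubgraphs
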