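import Pool.Agent.Q251.TC.HY

/-!
# The Havet-Yu conjecture for large even blow-ups
-/

set_option autoImplicit false

namespace Pool.Agent.Results.MP_b8729f_co.LargeBlowUps

open SimpleGraph

/-- A `(p,1)`-total labeling of `G` of span `l`: labels `0, …, l` for the vertices and the edges,
adjacent vertices and adjacent edges get different labels, and the labels of a vertex and of an edge
at it differ by at least `p`. -/
def TotalLabeling {V : Type} (G : SimpleGraph V) (p l : ℕ) : Prop :=
  ∃ (fV : V → ℕ) (fE : Sym2 V → ℕ),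
    (∀ v, fV v ≤ l) ∧ (∀ e ∈ G.edgeSet, fE e ≤ l) ∧
    (∀ u v, G.Adj u v → fV u ≠ fV v) ∧
    (∀ u v w, G.Adj u v → G.Adj u w → v ≠ w → fE s(u, v) ≠ fE s(u, w)) ∧
    (∀ u v, G.Adj u v → (p : ℤ) ≤ |(fV u : ℤ) - (fE s(u, v) : ℤ)|)

/-- The blow-up `G[m]`: every vertex `v` is replaced by `m` independent vertices `(v, i)`, and
`(v, i)`, `(w, j)` are adjacent if and only if `v` and `w` are. -/
def blowUp {V : Type} (G : SimpleGraph V) (m : ℕ) : SimpleGraph (V × Fin m) := G.comap Prod.fst

/-- **The Havet-Yu conjecture for large even blow-ups.**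
(1) Let `G` be any finite `r`-regular graph, `r ≥ 1`, let `p ≥ 1`, and let `m` be even and
`m ≥ (2 p - 1) |V(G)|`.  Then `G[m]`, which is `r m`-regular, has a `(p,1)`-total labeling of span
`r m + 2 p - 1`.
(2) For every finite graph `G` with all degrees at most `D` and every `p ≥ 1` there is `m₀` such that
for every even `m ≥ m₀` the graph `G[m]`, all whose degrees are at most `D m`, has a `(p,1)`-total
labeling of span `D m + 2 p - 1`. -/
theorem result :
    (∀ (V : Type) [Finite V] (G : SimpleGraph V) (r p m : ℕ), 0 < r → 1 ≤ p →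
      (∀ v, (G.neighborSet v).ncard = r) → (2 * p - 1) * Nat.card V ≤ m → Even m →
      (∀ x, ((blowUp G m).neighborSet x).ncard = r * m) ∧
        TotalLabeling (blowUp G m) p (r * m + 2 * p - 1)) ∧
    (∀ (V : Type) [Finite V] (G : SimpleGraph V) (D p : ℕ), 1 ≤ p →
      (∀ v, (G.neighborSet v).ncard ≤ D) →
      ∃ m₀ : ℕ, ∀ m, m₀ ≤ m → Even m →
        (∀ x, ((blowUp G m).neighborSet x).ncard ≤ D * m) ∧
          TotalLabeling (blowUp G m) p (D * m + 2 * p - 1)) := by
  have hdeg : ∀ (V : Type) (G : SimpleGraph V) (m : ℕ) (x : V × Fin m),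
      ((blowUp G m).neighborSet x).ncard = (G.neighborSet x.1).ncard * m := by
    intro V G m x
    have h1 : (blowUp G m).neighborSet x = G.neighborSet x.1 ×ˢ (Set.univ : Set (Fin m)) := by
      ext y
      simp [blowUp]
    rw [h1, Set.ncard_prod, Set.ncard_univ, Nat.card_eq_fintype_card, Fintype.card_fin]
  constructor
  · intro V _ G r p m hr hp hreg hm he
    exact ⟨fun x => by rw [hdeg, hreg], Pool.Agent.Q251.TC.hy_reg hr hp hreg hm he⟩
  · intro V _ G D p hp hG
    by_cases hD : D = 0
    · refine ⟨0, fun m _ _ => ⟨fun x => by rw [hdeg]; exact Nat.mul_le_mul_right m (hG x.1), ?_⟩⟩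
      refine Pool.Agent.Q251.TC.tl_empty (fun x y hxy => ?_) _ _
      have h1 := hG x.1
      rw [hD, Nat.le_zero, Set.ncard_eq_zero (Set.toFinite _)] at h1
      have h2 : y.1 ∈ G.neighborSet x.1 := hxy
      rw [h1] at h2
      exact Set.notMem_empty _ h2
    · obtain ⟨W, hW, H, hH, ⟨e⟩⟩ := Pool.Agent.TH525.LAD.exists_regular D D V G hG
        (fun v => by omega)
      refine ⟨(2 * p - 1) * Nat.card W, fun m hm he => ⟨fun x => by
        rw [hdeg]; exact Nat.mul_le_mul_right m (hG x.1), ?_⟩⟩
      exact Pool.Agent.Q251.TC.tl_embed e m _ _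
        (Pool.Agent.Q251.TC.hy_reg (by omega) hp hH hm he)

end Pool.Agent.Results.MP_b8729f_co.LargeBlowUps
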