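import Pool.Agent.Q251.TC.Tot

/-!
# The total colouring conjecture for even blow-ups
-/

set_option autoImplicit false

namespace Pool.Agent.Results.MP_b8729f_co.TotalColouringBlowUps

open SimpleGraph

/-- A `(p,1)`-total labeling of `G` of span `l`: labels `0, …, l` for the vertices and the edges,
adjacent vertices and adjacent edges get different labels, and the labels of a vertex and of an edge
at it differ by at least `p`. -/
def TotalLabeling {V : Type} (G : SimpleGraph V) (p l : ℕ) : Prop :=
  ∃ (fV : V → ℕ) (fE : Sym2 V → ℕ),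
    (∀ v, fV v ≤ l) ∧ (∀ e ∈ G.edgeSet, fE e ≤ l) ∧
    (∀ u v, G.Adj u v → fV u ≠ fV v) ∧
    (∀ u v w, G.Adj u v → G.Adj u w → v ≠ w → fE s(u, v) ≠ fE s(u, w)) ∧
    (∀ u v, G.Adj u v → (p : ℤ) ≤ |(fV u : ℤ) - (fE s(u, v) : ℤ)|)

/-- The blow-up `G[m]`: every vertex `v` is replaced by `m` independent vertices `(v, i)`, and
`(v, i)`, `(w, j)` are adjacent if and only if `v` and `w` are. -/
def blowUp {V : Type} (G : SimpleGraph V) (m : ℕ) : SimpleGraph (V × Fin m) := G.comap Prod.fst

/-- **The total colouring conjecture for even blow-ups.**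
Let `G` be any finite graph with all degrees at most `D` which has a proper colouring with `K`
colours, and let `m ≥ K` be even.  Then all degrees of `G[m]` are at most `D m` (the degree of
`(v, i)` is `m` times the degree of `v`), and `G[m]` has a `(1,1)`-total labeling of span `D m + 1`,
that is a proper total colouring with `D m + 2` colours. -/
theorem result (V : Type) [Finite V] (G : SimpleGraph V) (D K m : ℕ)
    (hdeg : ∀ v, (G.neighborSet v).ncard ≤ D) (hcol : G.Colorable K) (hK : K ≤ m)
    (hm : Even m) :
    (∀ x, ((blowUp G m).neighborSet x).ncard = (G.neighborSet x.1).ncard * m) ∧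
      TotalLabeling (blowUp G m) 1 (D * m + 1) := by
  refine ⟨?_, Pool.Agent.Q251.TC.tcc hdeg hcol hK hm⟩
  intro x
  have h1 : (blowUp G m).neighborSet x = G.neighborSet x.1 ×ˢ (Set.univ : Set (Fin m)) := by
    ext y
    simp [blowUp]
  rw [h1, Set.ncard_prod, Set.ncard_univ, Nat.card_eq_fintype_card, Fintype.card_fin]

end Pool.Agent.Results.MP_b8729f_co.TotalColouringBlowUps
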